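import Mathlib

/-!
The Kripke criterion for interpolant existence does not imply strong Kripke completeness.

The witness is the provability logic GL, presented as the set of formulas that are valid on all
transitive and conversely well-founded Kripke frames.
-/

namespace Pool.Agent.Results.MP_e3277b_lc.CriterionNotStrong

universe u v

/-- Formulas of propositional unimodal logic over the variables `p_0, p_1, ...`.
Primitive connectives: falsum, implication, box. -/
inductive Form : Type where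
  | var (n : ℕ) : Form
  | bot : Form
  | imp (φ ψ : Form) : Form
  | box (φ : Form) : Form

namespace Form

/-- Negation. -/
def neg (φ : Form) : Form := imp φ bot

/-- Verum. -/
def top : Form := neg bot

/-- Conjunction. -/
def and (φ ψ : Form) : Form := neg (imp φ (neg ψ))

/-- Disjunction. -/
def or (φ ψ : Form) : Form := imp (neg φ) ψ

/-- Diamond. -/
def dia (φ : Form) : Form := neg (box (neg φ))

/-- The set of variables of a formula. -/
def sig : Form → Set ℕ
  | var n => {n}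
  | bot => ∅
  | imp φ ψ => φ.sig ∪ ψ.sig
  | box φ => φ.sig

/-- Uniform substitution. -/
def subst (s : ℕ → Form) : Form → Form
  | var n => s n
  | bot => bot
  | imp φ ψ => imp (φ.subst s) (ψ.subst s)
  | box φ => box (φ.subst s)

/-- Conjunction of a finite list of formulas. -/
def conj : List Form → Form
  | [] => top
  | φ :: l => and φ (conj l)

end Form

open Form

/-- `φ` is a (substitution instance of a) propositional tautology: it is true under every
assignment of truth values to formulas that respects falsum and implication. -/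
def Taut (φ : Form) : Prop :=
  ∀ v : Form → Prop, ¬ v bot → (∀ α β, v (imp α β) ↔ (v α → v β)) → v φ

/-- Normal modal logics, as sets of formulas. -/
structure IsNormal (L : Set Form) : Prop where
  taut : ∀ φ, Taut φ → φ ∈ L
  axK : ∀ φ ψ, imp (box (imp φ ψ)) (imp (box φ) (box ψ)) ∈ L
  mp : ∀ φ ψ, imp φ ψ ∈ L → φ ∈ L → ψ ∈ L
  nec : ∀ φ, φ ∈ L → box φ ∈ L
  subst : ∀ φ s, φ ∈ L → φ.subst s ∈ L

/-- Truth of a formula at a point of the Kripke model `(W, R, V)`. -/
def Sat {W : Type u} (R : W → W → Prop) (V : ℕ → W → Prop) : W → Form → Prop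
  | x, var n => V n x
  | _, bot => False
  | x, imp φ ψ => Sat R V x φ → Sat R V x ψ
  | x, box φ => ∀ y, R x y → Sat R V y φ

/-- The Kripke frame `(W, R)` is a frame for `L`: it validates every formula of `L`. -/
def FrameFor (L : Set Form) {W : Type u} (R : W → W → Prop) : Prop :=
  ∀ φ ∈ L, ∀ (V : ℕ → W → Prop) (x : W), Sat R V x φ

/-- `Z` is a `σ`-bisimulation between the models `(W₁, R₁, V₁)` and `(W₂, R₂, V₂)`. -/
structure IsBisim (σ : Set ℕ) {W₁ : Type u} {W₂ : Type v}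
    (R₁ : W₁ → W₁ → Prop) (V₁ : ℕ → W₁ → Prop) (R₂ : W₂ → W₂ → Prop) (V₂ : ℕ → W₂ → Prop)
    (Z : W₁ → W₂ → Prop) : Prop where
  atoms : ∀ x₁ x₂, Z x₁ x₂ → ∀ n ∈ σ, (V₁ n x₁ ↔ V₂ n x₂)
  forth : ∀ x₁ x₂ y₁, Z x₁ x₂ → R₁ x₁ y₁ → ∃ y₂, R₂ x₂ y₂ ∧ Z y₁ y₂
  back : ∀ x₁ x₂ y₂, Z x₁ x₂ → R₂ x₂ y₂ → ∃ y₁, R₁ x₁ y₁ ∧ Z y₁ y₂

/-- `ι` is a Craig interpolant of `φ₁, φ₂` in `L`. -/
def IsInterpolant (L : Set Form) (φ₁ φ₂ ι : Form) : Prop :=
  ι.sig ⊆ φ₁.sig ∩ φ₂.sig ∧ imp φ₁ ι ∈ L ∧ imp ι φ₂ ∈ L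

/-- `L` has the Kripke criterion: for all `φ₁, φ₂` with `σ = sig φ₁ ∩ sig φ₂`, there is no
interpolant of `φ₁, φ₂` in `L` iff there are `σ`-bisimilar pointed models, based on Kripke frames
for `L`, the first satisfying `φ₁` and the second satisfying `¬ φ₂`. -/
def KripkeCriterion (L : Set Form) : Prop :=
  ∀ φ₁ φ₂ : Form, (¬ ∃ ι, IsInterpolant L φ₁ φ₂ ι) ↔
    ∃ (W₁ : Type u) (R₁ : W₁ → W₁ → Prop) (V₁ : ℕ → W₁ → Prop) (x₁ : W₁)
      (W₂ : Type u) (R₂ : W₂ → W₂ → Prop) (V₂ : ℕ → W₂ → Prop) (x₂ : W₂),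
      FrameFor L R₁ ∧ FrameFor L R₂ ∧
      (∃ Z : W₁ → W₂ → Prop, IsBisim (φ₁.sig ∩ φ₂.sig) R₁ V₁ R₂ V₂ Z ∧ Z x₁ x₂) ∧
      Sat R₁ V₁ x₁ φ₁ ∧ Sat R₂ V₂ x₂ (neg φ₂)

/-- `Γ` is `L`-consistent: no negation of a finite conjunction of members of `Γ` is in `L`. -/
def Consistent (L : Set Form) (Γ : Set Form) : Prop :=
  ∀ l : List Form, (∀ ψ ∈ l, ψ ∈ Γ) → neg (conj l) ∉ L

/-- `L` is strongly Kripke complete: every `L`-consistent set of formulas is satisfied at some
point of some model based on a Kripke frame for `L`. -/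
def StronglyKripkeComplete (L : Set Form) : Prop :=
  ∀ Γ : Set Form, Consistent L Γ →
    ∃ (W : Type u) (R : W → W → Prop) (V : ℕ → W → Prop) (x : W),
      FrameFor L R ∧ ∀ ψ ∈ Γ, Sat R V x ψ

/-! ### Basic facts -/

section Basic

variable {W : Type u} {R : W → W → Prop} {V : ℕ → W → Prop} {x : W}

@[simp] theorem sat_var {n : ℕ} : Sat R V x (var n) ↔ V n x := Iff.rfl
@[simp] theorem sat_bot : Sat R V x bot ↔ False := Iff.rfl
@[simp] theorem sat_imp {φ ψ : Form} :
    Sat R V x (imp φ ψ) ↔ (Sat R V x φ → Sat R V x ψ) := Iff.rfl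
@[simp] theorem sat_box {φ : Form} :
    Sat R V x (box φ) ↔ ∀ y, R x y → Sat R V y φ := Iff.rfl
@[simp] theorem sat_neg {φ : Form} : Sat R V x (neg φ) ↔ ¬ Sat R V x φ := Iff.rfl
@[simp] theorem sat_top : Sat R V x top ↔ True := by simp [top]
@[simp] theorem sat_and {φ ψ : Form} :
    Sat R V x (Form.and φ ψ) ↔ (Sat R V x φ ∧ Sat R V x ψ) := by
  simp [Form.and]
@[simp] theorem sat_or {φ ψ : Form} :
    Sat R V x (Form.or φ ψ) ↔ (Sat R V x φ ∨ Sat R V x ψ) := by
  simp only [Form.or, sat_imp, sat_neg]; tauto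
@[simp] theorem sat_dia {φ : Form} :
    Sat R V x (dia φ) ↔ ∃ y, R x y ∧ Sat R V y φ := by
  simp [dia]
theorem sat_conj {l : List Form} : Sat R V x (conj l) ↔ ∀ ψ ∈ l, Sat R V x ψ := by
  induction l with
  | nil => simp [conj]
  | cons a l ih => simp [conj, ih]

theorem sat_subst {s : ℕ → Form} {φ : Form} : ∀ {x : W},
    Sat R V x (φ.subst s) ↔ Sat R (fun n y => Sat R V y (s n)) x φ := by
  induction φ with
  | var n => intro x; simp [subst]
  | bot => intro x; simp [subst]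
  | imp φ ψ h1 h2 => intro x; simp [subst, h1, h2]
  | box φ h => intro x; simp [subst, h]

end Basic

/-- Bisimilar points agree on formulas in the shared signature. -/
theorem bisim_sat {σ : Set ℕ} {W₁ : Type u} {W₂ : Type v}
    {R₁ : W₁ → W₁ → Prop} {V₁ : ℕ → W₁ → Prop} {R₂ : W₂ → W₂ → Prop} {V₂ : ℕ → W₂ → Prop}
    {Z : W₁ → W₂ → Prop} (hZ : IsBisim σ R₁ V₁ R₂ V₂ Z) (φ : Form) (hφ : φ.sig ⊆ σ) :
    ∀ x₁ x₂, Z x₁ x₂ → (Sat R₁ V₁ x₁ φ ↔ Sat R₂ V₂ x₂ φ) := by
  induction φ with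
  | var n =>
    intro x₁ x₂ h
    exact hZ.atoms x₁ x₂ h n (hφ (by simp [sig]))
  | bot => intro x₁ x₂ _; simp
  | imp φ ψ h1 h2 =>
    intro x₁ x₂ h
    simp only [sig, Set.union_subset_iff] at hφ
    simp only [sat_imp, h1 hφ.1 x₁ x₂ h, h2 hφ.2 x₁ x₂ h]
  | box φ ih =>
    intro x₁ x₂ h
    simp only [sat_box]
    constructor
    · intro hb y₂ hy
      obtain ⟨y₁, hy₁, hz⟩ := hZ.back x₁ x₂ y₂ h hy
      exact (ih hφ y₁ y₂ hz).1 (hb y₁ hy₁)
    · intro hb y₁ hy
      obtain ⟨y₂, hy₂, hz⟩ := hZ.forth x₁ x₂ y₁ h hy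
      exact (ih hφ y₁ y₂ hz).2 (hb y₂ hy₂)

/-! ### The logic GL -/

/-- Transitivity of a relation. -/
def Tra {W : Type u} (R : W → W → Prop) : Prop := ∀ x y z, R x y → R y z → R x z

/-- The logic of all transitive and conversely well-founded Kripke frames. -/
def LogicGL : Set Form :=
  {φ | ∀ (W : Type) (R : W → W → Prop), Tra R → WellFounded (flip R) →
    ∀ (V : ℕ → W → Prop) (x : W), Sat R V x φ}

theorem isNormal_GL : IsNormal LogicGL where
  taut φ h W R _ _ V x := h (fun ψ => Sat R V x ψ) (by simp) (by simp)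
  axK φ ψ W R _ _ V x := by
    simp only [sat_imp, sat_box]
    intro h1 h2 y hy
    exact h1 y hy (h2 y hy)
  mp φ ψ h1 h2 W R ht hw V x := h1 W R ht hw V x (h2 W R ht hw V x)
  nec φ h W R ht hw V x := by
    intro y _
    exact h W R ht hw V y
  subst φ s h W R ht hw V x := by
    rw [sat_subst]
    exact h W R ht hw _ x

/-- The Löb axiom. -/
def loeb : Form := imp (box (imp (box (var 0)) (var 0))) (box (var 0))

theorem loeb_mem : loeb ∈ LogicGL := by
  intro W R ht hw V x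
  simp only [loeb, sat_imp, sat_box, sat_var]
  intro h y hy
  -- well-founded induction along `flip R`
  revert hy
  induction y using hw.induction with
  | _ y ih =>
    intro hy
    apply h y hy
    intro z hz
    exact ih z hz (ht _ _ _ hy hz)

/-- A frame (in any universe) that validates GL is transitive. -/
theorem trans_of_frameFor {W : Type u} {R : W → W → Prop} (h : FrameFor LogicGL R) :
    Tra R := by
  intro x y z hxy hyz
  have h1 := h _ loeb_mem (fun _ w => R x w ∧ ∀ v, R w v → R x v) x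
  simp only [loeb, sat_imp, sat_box, sat_var] at h1
  have h2 := h1 (fun w hw hv => ⟨hw, fun v hwv => (hv v hwv).1⟩) y hxy
  exact h2.2 z hyz

/-- In a frame (in any universe) that validates GL, no nonempty set of points is such that every
member has a successor in the set. -/
theorem no_chain_of_frameFor {W : Type u} {R : W → W → Prop} (h : FrameFor LogicGL R)
    (S : Set W) (x : W) (hx : x ∈ S) (hS : ∀ s ∈ S, ∃ t ∈ S, R s t) : False := by
  have h1 := h _ loeb_mem (fun _ w => w ∉ S) x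
  simp only [loeb, sat_imp, sat_box, sat_var] at h1
  have h2 := h1 (by
    intro w _ hv hwS
    obtain ⟨t, ht, hwt⟩ := hS w hwS
    exact hv t hwt ht)
  obtain ⟨t, ht, hxt⟩ := hS x hx
  exact h2 t hxt ht

/-- The set `{◇p₀} ∪ {□(p_i → ◇p_{i+1}) : i ∈ ℕ}`. -/
def chainSet : Set Form :=
  {φ | φ = dia (var 0) ∨ ∃ i : ℕ, φ = box (imp (var i) (dia (var (i + 1))))}

theorem chainSet_consistent : Consistent LogicGL chainSet := by
  intro l hl hmem
  -- all members of `l` have index below some `N`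
  have hN : ∃ N : ℕ, ∀ ψ ∈ l, ψ = dia (var 0) ∨
      ∃ i : ℕ, i < N ∧ ψ = box (imp (var i) (dia (var (i + 1)))) := by
    clear hmem
    induction l with
    | nil => exact ⟨0, by simp⟩
    | cons a l ih =>
      obtain ⟨N, hN⟩ := ih (fun ψ hψ => hl ψ (by simp [hψ]))
      rcases hl a (by simp) with ha | ⟨i, ha⟩
      · refine ⟨N, ?_⟩
        intro ψ hψ
        rcases List.mem_cons.1 hψ with rfl | h
        · exact Or.inl ha
        · exact hN ψ h
      · refine ⟨max N (i + 1), ?_⟩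
        intro ψ hψ
        rcases List.mem_cons.1 hψ with rfl | h
        · exact Or.inr ⟨i, by omega, ha⟩
        · rcases hN ψ h with h' | ⟨j, hj, h'⟩
          · exact Or.inl h'
          · exact Or.inr ⟨j, by omega, h'⟩
  obtain ⟨N, hN⟩ := hN
  have hwf : WellFounded (flip (fun m k : ℕ => k < m)) := by
    have : (flip (fun m k : ℕ => k < m)) = (fun k m : ℕ => k < m) := rfl
    rw [this]
    exact Nat.lt_wfRel.wf
  have h := hmem ℕ (fun m k => k < m) (fun a b c h1 h2 => lt_trans h2 h1) hwf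
    (fun i y => y + i = N) (N + 1)
  rw [sat_neg, sat_conj] at h
  apply h
  intro ψ hψ
  rcases hN ψ hψ with h' | ⟨i, hi, h'⟩
  · subst h'
    simp
  · subst h'
    simp only [sat_box, sat_imp, sat_var, sat_dia]
    intro y hy hyi
    exact ⟨y - 1, by omega, by omega⟩

theorem not_strong_GL : ¬ StronglyKripkeComplete.{u} LogicGL := by
  intro hs
  obtain ⟨W, R, V, x, hF, hsat⟩ := hs chainSet chainSet_consistent
  have ht := trans_of_frameFor hF
  have h0 := hsat (dia (var 0)) (Or.inl rfl)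
  simp only [sat_dia, sat_var] at h0
  obtain ⟨y, hxy, hy⟩ := h0
  refine no_chain_of_frameFor hF {y | R x y ∧ ∃ i, V i y} y ⟨hxy, 0, hy⟩ ?_
  rintro s ⟨hxs, i, hi⟩
  have h1 := hsat (box (imp (var i) (dia (var (i + 1))))) (Or.inr ⟨i, rfl⟩)
  simp only [sat_box, sat_imp, sat_var, sat_dia] at h1
  obtain ⟨z, hsz, hz⟩ := h1 s hxs hi
  exact ⟨z, ⟨ht _ _ _ hxs hsz, i + 1, hz⟩, hsz⟩

/-! ### Pointed models and separation -/

/-- Pointed models on transitive conversely well-founded frames. -/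
structure PM where
  W : Type
  R : W → W → Prop
  V : ℕ → W → Prop
  x : W
  tr : Tra R
  wf : WellFounded (flip R)

/-- Truth at a pointed model. -/
def PM.sat (M : PM) (φ : Form) : Prop := Sat M.R M.V M.x φ

/-- The formula `θ` over `σ` separates the class `P` from the class `Q`. -/
def Sep (σ : Set ℕ) (P Q : PM → Prop) : Prop :=
  ∃ θ : Form, θ.sig ⊆ σ ∧ (∀ M, P M → M.sat θ) ∧ (∀ M, Q M → ¬ M.sat θ)

theorem Sep.symm {σ : Set ℕ} {P Q : PM → Prop} (h : Sep σ P Q) : Sep σ Q P := by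
  obtain ⟨θ, h1, h2, h3⟩ := h
  refine ⟨neg θ, by simpa [neg, sig] using h1, ?_, ?_⟩
  · intro M hM; exact h3 M hM
  · intro M hM h; exact h (h2 M hM)

theorem Sep.finset_right {σ : Set ℕ} {ι : Type} (J : Finset ι) (P : PM → Prop)
    (Q : ι → PM → Prop) (h : ∀ j ∈ J, Sep σ P (Q j)) : Sep σ P (fun M => ∃ j ∈ J, Q j M) := by
  classical
  induction J using Finset.induction_on with
  | empty =>
    refine ⟨top, by simp [top, neg, sig], ?_, ?_⟩
    · intro M _; exact sat_top.2 trivial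
    · rintro M ⟨j, hj, _⟩; simp at hj
  | insert a J _ ih =>
    obtain ⟨θ₁, a1, a2, a3⟩ := h a (by simp)
    obtain ⟨θ₂, b1, b2, b3⟩ := ih (fun j hj => h j (by simp [hj]))
    refine ⟨Form.and θ₁ θ₂, ?_, ?_, ?_⟩
    · simp [Form.and, neg, sig, a1, b1]
    · intro M hM
      exact sat_and.2 ⟨a2 M hM, b2 M hM⟩
    · rintro M ⟨j, hj, hQ⟩ hs
      have hs' := sat_and.1 hs
      rcases Finset.mem_insert.1 hj with rfl | hj
      · exact a3 M hQ hs'.1
      · exact b3 M ⟨j, hj, hQ⟩ hs'.2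

theorem Sep.finset {σ : Set ℕ} {ι κ : Type} (I : Finset ι) (J : Finset κ)
    (P : ι → PM → Prop) (Q : κ → PM → Prop) (h : ∀ i ∈ I, ∀ j ∈ J, Sep σ (P i) (Q j)) :
    Sep σ (fun M => ∃ i ∈ I, P i M) (fun M => ∃ j ∈ J, Q j M) := by
  refine Sep.symm (Sep.finset_right I _ P ?_)
  intro i hi
  exact Sep.symm (Sep.finset_right J _ Q (fun j hj => h i hi j hj))

/-- The subformulas of a formula. -/
noncomputable def sub : Form → Finset Form
  | var n => {var n}
  | bot => {bot}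
  | imp φ ψ => by classical exact insert (imp φ ψ) (sub φ ∪ sub ψ)
  | box φ => by classical exact insert (box φ) (sub φ)

theorem mem_sub_self (φ : Form) : φ ∈ sub φ := by
  cases φ <;> simp [sub]

theorem sub_imp {φ α β : Form} (h : imp α β ∈ sub φ) : α ∈ sub φ ∧ β ∈ sub φ := by
  induction φ with
  | var n => simp [sub] at h
  | bot => simp [sub] at h
  | imp φ ψ h1 h2 =>
    simp only [sub, Finset.mem_insert, Finset.mem_union] at h ⊢
    rcases h with h | h | h
    · obtain ⟨rfl, rfl⟩ := Form.imp.inj h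
      exact ⟨Or.inr (Or.inl (mem_sub_self _)), Or.inr (Or.inr (mem_sub_self _))⟩
    · exact ⟨Or.inr (Or.inl (h1 h).1), Or.inr (Or.inl (h1 h).2)⟩
    · exact ⟨Or.inr (Or.inr (h2 h).1), Or.inr (Or.inr (h2 h).2)⟩
  | box φ ih =>
    simp only [sub, Finset.mem_insert] at h ⊢
    rcases h with h | h
    · cases h
    · exact ⟨Or.inr (ih h).1, Or.inr (ih h).2⟩

theorem sub_box {φ α : Form} (h : box α ∈ sub φ) : α ∈ sub φ := by
  induction φ with
  | var n => simp [sub] at h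
  | bot => simp [sub] at h
  | imp φ ψ h1 h2 =>
    simp only [sub, Finset.mem_insert, Finset.mem_union] at h ⊢
    rcases h with h | h | h
    · cases h
    · exact Or.inr (Or.inl (h1 h))
    · exact Or.inr (Or.inr (h2 h))
  | box φ ih =>
    simp only [sub, Finset.mem_insert] at h ⊢
    rcases h with h | h
    · obtain rfl := Form.box.inj h
      exact Or.inr (mem_sub_self _)
    · exact Or.inr (ih h)

theorem sig_of_mem_sub {φ ψ : Form} (h : ψ ∈ sub φ) : ψ.sig ⊆ φ.sig := by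
  induction φ with
  | var n =>
    simp only [sub, Finset.mem_singleton] at h; subst h; exact subset_rfl
  | bot =>
    simp only [sub, Finset.mem_singleton] at h; subst h; exact subset_rfl
  | imp φ₁ φ₂ h1 h2 =>
    simp only [sub, Finset.mem_insert, Finset.mem_union] at h
    rcases h with h | h | h
    · subst h; exact subset_rfl
    · exact (h1 h).trans (by simp [sig])
    · exact (h2 h).trans (by simp [sig])
  | box φ ih =>
    simp only [sub, Finset.mem_insert] at h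
    rcases h with h | h
    · subst h; exact subset_rfl
    · exact (ih h).trans (by simp [sig])

/-- `M` realizes the truth assignment `X` on the finite set `Φ`. -/
def Real (Φ X : Finset Form) (M : PM) : Prop := ∀ A ∈ Φ, (M.sat A ↔ A ∈ X)

/-- The central step: an inseparable pair in which a boxed formula fails has an inseparable
successor pair in which this formula fails for the last time. -/
theorem main_step {σ : Set ℕ} {φ₁ φ₂ : Form} {X Y : Finset Form}
    (hX : X ⊆ sub φ₁) (hY : Y ⊆ sub φ₂)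
    (hns : ¬ Sep σ (Real (sub φ₁) X) (Real (sub φ₂) Y)) {A : Form}
    (hA : box A ∈ sub φ₁) (hAX : box A ∉ X) :
    ∃ X' Y' : Finset Form, X' ⊆ sub φ₁ ∧ Y' ⊆ sub φ₂ ∧
      ¬ Sep σ (Real (sub φ₁) X') (Real (sub φ₂) Y') ∧
      A ∉ X' ∧ box A ∈ X' ∧ (∀ B, box B ∈ X → B ∈ X' ∧ box B ∈ X') ∧
      (∀ C, box C ∈ Y → C ∈ Y' ∧ box C ∈ Y') := by
  classical
  by_contra hcon
  apply hns
  set I : Finset (Finset Form) := (sub φ₁).powerset.filter
    (fun X' => A ∉ X' ∧ box A ∈ X' ∧ ∀ B, box B ∈ X → B ∈ X' ∧ box B ∈ X') with hI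
  set J : Finset (Finset Form) := (sub φ₂).powerset.filter
    (fun Y' => ∀ C, box C ∈ Y → C ∈ Y' ∧ box C ∈ Y') with hJ
  have hsep : Sep σ (fun M => ∃ X' ∈ I, Real (sub φ₁) X' M)
      (fun M => ∃ Y' ∈ J, Real (sub φ₂) Y' M) := by
    apply Sep.finset
    intro X' hX' Y' hY'
    by_contra hns'
    apply hcon
    simp only [hI, Finset.mem_filter, Finset.mem_powerset] at hX'
    simp only [hJ, Finset.mem_filter, Finset.mem_powerset] at hY'
    exact ⟨X', Y', hX'.1, hY'.1, hns', hX'.2.1, hX'.2.2.1, hX'.2.2.2, hY'.2⟩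
  obtain ⟨θ, hθ, hP, hQ⟩ := hsep
  refine ⟨dia θ, by simpa [dia, neg, sig] using hθ, ?_, ?_⟩
  · intro M hM
    -- there is a last successor refuting `A`
    have h1 : ¬ M.sat (box A) := fun h => hAX ((hM _ hA).1 h)
    have h2 : ∃ y, M.R M.x y ∧ ¬ Sat M.R M.V y A := by
      by_contra hno
      apply h1
      intro y hy
      by_contra hyA
      exact hno ⟨y, hy, hyA⟩
    obtain ⟨y, ⟨hxy, hyA⟩, hmin⟩ :=
      M.wf.has_min {y | M.R M.x y ∧ ¬ Sat M.R M.V y A} h2
    have hyb : Sat M.R M.V y (box A) := by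
      intro z hz
      by_contra hzA
      exact hmin z ⟨M.tr _ _ _ hxy hz, hzA⟩ hz
    refine sat_dia.2 ⟨y, hxy, ?_⟩
    -- the pointed model at `y`
    let My : PM := ⟨M.W, M.R, M.V, y, M.tr, M.wf⟩
    have hMy : My.sat θ := by
      apply hP
      refine ⟨(sub φ₁).filter (fun B => My.sat B), ?_, ?_⟩
      · simp only [hI, Finset.mem_filter, Finset.mem_powerset]
        refine ⟨Finset.filter_subset _ _, ?_, ?_, ?_⟩
        · rintro ⟨_, h⟩; exact hyA h
        · exact ⟨hA, hyb⟩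
        · intro B hB
          have hBs : box B ∈ sub φ₁ := hX hB
          have hMB : M.sat (box B) := (hM _ hBs).2 hB
          refine ⟨⟨sub_box hBs, hMB y hxy⟩, hBs, ?_⟩
          intro z hz
          exact hMB z (M.tr _ _ _ hxy hz)
      · intro B hB
        simp [hB]
    exact hMy
  · intro M hM hd
    obtain ⟨y, hxy, hyθ⟩ := sat_dia.1 hd
    let My : PM := ⟨M.W, M.R, M.V, y, M.tr, M.wf⟩
    refine hQ My ⟨(sub φ₂).filter (fun B => My.sat B), ?_, ?_⟩ hyθ
    · simp only [hJ, Finset.mem_filter, Finset.mem_powerset]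
      refine ⟨Finset.filter_subset _ _, ?_⟩
      intro C hC
      have hCs : box C ∈ sub φ₂ := hY hC
      have hMC : M.sat (box C) := (hM _ hCs).2 hC
      refine ⟨⟨sub_box hCs, hMC y hxy⟩, hCs, ?_⟩
      intro z hz
      exact hMC z (M.tr _ _ _ hxy hz)
    · intro B hB
      simp [hB]

/-- Inseparable pairs. -/
def Wd (φ₁ φ₂ : Form) : Type :=
  {p : Finset Form × Finset Form // p.1 ⊆ sub φ₁ ∧ p.2 ⊆ sub φ₂ ∧
    ¬ Sep (φ₁.sig ∩ φ₂.sig) (Real (sub φ₁) p.1) (Real (sub φ₂) p.2)}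

/-- Accessibility between inseparable pairs. -/
def RW (φ₁ φ₂ : Form) (p q : Wd φ₁ φ₂) : Prop :=
  (∀ B, box B ∈ p.1.1 → B ∈ q.1.1 ∧ box B ∈ q.1.1) ∧
  (∀ C, box C ∈ p.1.2 → C ∈ q.1.2 ∧ box C ∈ q.1.2) ∧
  ((∃ A, box A ∈ q.1.1 ∧ box A ∉ p.1.1) ∨ (∃ A, box A ∈ q.1.2 ∧ box A ∉ p.1.2))

/-- Valuation on inseparable pairs. -/
def VW (φ₁ φ₂ : Form) (n : ℕ) (p : Wd φ₁ φ₂) : Prop := var n ∈ p.1.1 ∨ var n ∈ p.1.2

theorem RW_trans (φ₁ φ₂ : Form) : Tra (RW φ₁ φ₂) := by
  rintro p q r ⟨a1, a2, a3⟩ ⟨b1, b2, b3⟩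
  refine ⟨fun B hB => b1 B (a1 B hB).2, fun C hC => b2 C (a2 C hC).2, ?_⟩
  rcases a3 with ⟨A, h1, h2⟩ | ⟨A, h1, h2⟩
  · exact Or.inl ⟨A, (b1 A h1).2, h2⟩
  · exact Or.inr ⟨A, (b2 A h1).2, h2⟩

instance (φ₁ φ₂ : Form) : Finite (Wd φ₁ φ₂) := by
  classical
  have : Finite {p : Finset Form × Finset Form // p ∈ (sub φ₁).powerset ×ˢ (sub φ₂).powerset} :=
    inferInstance
  refine Finite.of_injective
    (β := {p : Finset Form × Finset Form // p ∈ (sub φ₁).powerset ×ˢ (sub φ₂).powerset})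
    (fun p => ⟨p.1, by simp [Finset.mem_product, p.2.1, p.2.2.1]⟩) ?_
  intro p q h
  exact Subtype.ext (Subtype.mk.inj h)

theorem RW_wf (φ₁ φ₂ : Form) : WellFounded (flip (RW φ₁ φ₂)) := by
  have : IsTrans (Wd φ₁ φ₂) (flip (RW φ₁ φ₂)) := ⟨fun a b c h1 h2 => RW_trans φ₁ φ₂ _ _ _ h2 h1⟩
  have : Std.Irrefl (flip (RW φ₁ φ₂)) := ⟨by
    rintro p ⟨_, _, ⟨A, h1, h2⟩ | ⟨A, h1, h2⟩⟩
    · exact h2 h1
    · exact h2 h1⟩
  exact Finite.wellFounded_of_trans_of_irrefl _

theorem exists_real_left {σ : Set ℕ} {P Q : PM → Prop} (h : ¬ Sep σ P Q) : ∃ M, P M := by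
  by_contra hno
  exact h ⟨bot, by simp [sig], fun M hM => absurd ⟨M, hM⟩ hno, fun M _ h => h⟩

theorem exists_real_right {σ : Set ℕ} {P Q : PM → Prop} (h : ¬ Sep σ P Q) : ∃ M, Q M :=
  exists_real_left (fun h' => h h'.symm)

theorem truth_lemma (φ₁ φ₂ : Form) (A : Form) : ∀ p : Wd φ₁ φ₂,
    (A ∈ sub φ₁ → (Sat (RW φ₁ φ₂) (VW φ₁ φ₂) p A ↔ A ∈ p.1.1)) ∧
    (A ∈ sub φ₂ → (Sat (RW φ₁ φ₂) (VW φ₁ φ₂) p A ↔ A ∈ p.1.2)) := by
  induction A with
  | var n =>
    intro p
    obtain ⟨⟨X, Y⟩, hX, hY, hns⟩ := p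
    dsimp only at hX hY hns
    constructor
    · intro hn
      show (var n ∈ X ∨ var n ∈ Y) ↔ _
      constructor
      · rintro (h | h)
        · exact h
        · by_contra hnX
          apply hns
          have h1 : n ∈ φ₁.sig := sig_of_mem_sub hn (by simp [sig])
          have h2 : n ∈ φ₂.sig := sig_of_mem_sub (hY h) (by simp [sig])
          refine ⟨neg (var n), by simp [neg, sig, h1, h2], ?_, ?_⟩
          · intro M hM hs; exact hnX ((hM _ hn).1 hs)
          · intro M hM hs; exact hs ((hM _ (hY h)).2 h)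
      · exact Or.inl
    · intro hn
      show (var n ∈ X ∨ var n ∈ Y) ↔ _
      constructor
      · rintro (h | h)
        · by_contra hnY
          apply hns
          have h1 : n ∈ φ₁.sig := sig_of_mem_sub (hX h) (by simp [sig])
          have h2 : n ∈ φ₂.sig := sig_of_mem_sub hn (by simp [sig])
          refine ⟨var n, by simp [sig, h1, h2], ?_, ?_⟩
          · intro M hM; exact (hM _ (hX h)).2 h
          · intro M hM hs; exact hnY ((hM _ hn).1 hs)
        · exact h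
      · exact Or.inr
  | bot =>
    intro p
    obtain ⟨M, hM⟩ := exists_real_left p.2.2.2
    obtain ⟨N, hN⟩ := exists_real_right p.2.2.2
    constructor
    · intro hb; exact hM _ hb
    · intro hb; exact hN _ hb
  | imp α β ih1 ih2 =>
    intro p
    obtain ⟨M, hM⟩ := exists_real_left p.2.2.2
    obtain ⟨N, hN⟩ := exists_real_right p.2.2.2
    constructor
    · intro hb
      obtain ⟨ha, hb'⟩ := sub_imp hb
      rw [← hM _ hb, sat_imp, (ih1 p).1 ha, (ih2 p).1 hb', ← hM _ ha, ← hM _ hb']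
      rfl
    · intro hb
      obtain ⟨ha, hb'⟩ := sub_imp hb
      rw [← hN _ hb, sat_imp, (ih1 p).2 ha, (ih2 p).2 hb', ← hN _ ha, ← hN _ hb']
      rfl
  | box A ih =>
    intro p
    constructor
    · intro hb
      constructor
      · intro hs
        by_contra hno
        obtain ⟨X', Y', c1, c2, c3, c4, c5, c6, c7⟩ :=
          main_step p.2.1 p.2.2.1 p.2.2.2 hb hno
        let q : Wd φ₁ φ₂ := ⟨(X', Y'), c1, c2, c3⟩
        have hpq : RW φ₁ φ₂ p q := ⟨c6, c7, Or.inl ⟨A, c5, hno⟩⟩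
        exact c4 (((ih q).1 (sub_box hb)).1 (hs q hpq))
      · intro hp q hpq
        exact ((ih q).1 (sub_box hb)).2 (hpq.1 A hp).1
    · intro hb
      constructor
      · intro hs
        by_contra hno
        obtain ⟨Y', X', c1, c2, c3, c4, c5, c6, c7⟩ :=
          main_step p.2.2.1 p.2.1 (fun h => p.2.2.2 h.symm) hb hno
        let q : Wd φ₁ φ₂ := ⟨(X', Y'), c2, c1, fun h => c3 h.symm⟩
        have hpq : RW φ₁ φ₂ p q := ⟨c7, c6, Or.inr ⟨A, c5, hno⟩⟩
        exact c4 (((ih q).2 (sub_box hb)).1 (hs q hpq))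
      · intro hp q hpq
        exact ((ih q).2 (sub_box hb)).2 (hpq.2.1 A hp).1

/-- If `φ₁, φ₂` have no interpolant in GL, then `φ₁ ∧ ¬φ₂` holds at a point of a model on a
transitive conversely well-founded frame. -/
theorem exists_model {φ₁ φ₂ : Form} (h : ¬ ∃ ι, IsInterpolant LogicGL φ₁ φ₂ ι) :
    ∃ M : PM, M.sat φ₁ ∧ ¬ M.sat φ₂ := by
  classical
  by_contra hcon
  apply h
  set I : Finset (Finset Form) := (sub φ₁).powerset.filter (fun X => φ₁ ∈ X) with hI
  set J : Finset (Finset Form) := (sub φ₂).powerset.filter (fun Y => φ₂ ∉ Y) with hJ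
  have hsep : Sep (φ₁.sig ∩ φ₂.sig) (fun M => ∃ X ∈ I, Real (sub φ₁) X M)
      (fun M => ∃ Y ∈ J, Real (sub φ₂) Y M) := by
    apply Sep.finset
    intro X hX Y hY
    by_contra hns
    simp only [hI, Finset.mem_filter, Finset.mem_powerset] at hX
    simp only [hJ, Finset.mem_filter, Finset.mem_powerset] at hY
    apply hcon
    let p : Wd φ₁ φ₂ := ⟨(X, Y), hX.1, hY.1, hns⟩
    refine ⟨⟨Wd φ₁ φ₂, RW φ₁ φ₂, VW φ₁ φ₂, p, RW_trans φ₁ φ₂, RW_wf φ₁ φ₂⟩, ?_, ?_⟩
    · exact ((truth_lemma φ₁ φ₂ φ₁ p).1 (mem_sub_self _)).2 hX.2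
    · intro hs
      exact hY.2 (((truth_lemma φ₁ φ₂ φ₂ p).2 (mem_sub_self _)).1 hs)
  obtain ⟨θ, hθ, hP, hQ⟩ := hsep
  refine ⟨θ, hθ, ?_, ?_⟩
  · intro W R ht hw V x hs
    let M : PM := ⟨W, R, V, x, ht, hw⟩
    refine hP M ⟨(sub φ₁).filter (fun B => M.sat B), ?_, ?_⟩
    · simp only [hI, Finset.mem_filter, Finset.mem_powerset]
      exact ⟨Finset.filter_subset _ _, mem_sub_self _, hs⟩
    · intro B hB; simp [hB]
  · intro W R ht hw V x hs
    by_contra hno
    let M : PM := ⟨W, R, V, x, ht, hw⟩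
    refine hQ M ⟨(sub φ₂).filter (fun B => M.sat B), ?_, ?_⟩ hs
    · simp only [hJ, Finset.mem_filter, Finset.mem_powerset]
      exact ⟨Finset.filter_subset _ _, fun h => hno h.2⟩
    · intro B hB; simp [hB]

/-! ### Transport to an arbitrary universe -/

/-- The relation on the lifted type. -/
def liftR {W : Type} (R : W → W → Prop) : ULift.{u} W → ULift.{u} W → Prop :=
  fun a b => R a.down b.down

theorem sat_lift {W : Type} {R : W → W → Prop} {V : ℕ → ULift.{u} W → Prop} (φ : Form) :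
    ∀ x : ULift.{u} W, Sat (liftR R) V x φ ↔ Sat R (fun n w => V n ⟨w⟩) x.down φ := by
  induction φ with
  | var n => intro x; rfl
  | bot => intro x; rfl
  | imp φ ψ h1 h2 => intro x; simp only [sat_imp, h1, h2]
  | box φ ih =>
    intro x
    simp only [sat_box]
    constructor
    · intro h y hy
      exact (ih ⟨y⟩).1 (h ⟨y⟩ hy)
    · intro h y hy
      exact (ih y).2 (h y.down hy)

theorem criterion_GL : KripkeCriterion.{u} LogicGL := by
  intro φ₁ φ₂
  constructor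
  · intro h
    obtain ⟨M, h1, h2⟩ := exists_model h
    have hF : FrameFor LogicGL (liftR.{u} M.R) := by
      intro φ hφ V x
      rw [sat_lift]
      exact hφ M.W M.R M.tr M.wf _ _
    refine ⟨ULift.{u} M.W, liftR M.R, fun n x => M.V n x.down, ⟨M.x⟩,
      ULift.{u} M.W, liftR M.R, fun n x => M.V n x.down, ⟨M.x⟩, hF, hF, ⟨Eq, ?_, rfl⟩, ?_, ?_⟩
    · constructor
      · rintro x₁ x₂ rfl n _; rfl
      · rintro x₁ x₂ y₁ rfl h; exact ⟨y₁, h, rfl⟩
      · rintro x₁ x₂ y₂ rfl h; exact ⟨y₂, h, rfl⟩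
    · rw [sat_lift]; exact h1
    · rw [sat_lift]; exact h2
  · rintro ⟨W₁, R₁, V₁, x₁, W₂, R₂, V₂, x₂, hF₁, hF₂, ⟨Z, hZ, hx⟩, hs₁, hs₂⟩
      ⟨ι, hι, hι₁, hι₂⟩
    have h1 : Sat R₁ V₁ x₁ ι := hF₁ _ hι₁ V₁ x₁ hs₁
    have h2 : Sat R₂ V₂ x₂ ι := (bisim_sat hZ ι hι x₁ x₂ hx).1 h1
    exact hs₂ (hF₂ _ hι₂ V₂ x₂ h2)

/-- There is a normal modal logic that has the Kripke criterion but is not strongly Kripke
complete. -/
theorem result : ∃ L : Set Form, IsNormal L ∧ KripkeCriterion.{u} L ∧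
    ¬ StronglyKripkeComplete.{u} L :=
  ⟨LogicGL, isNormal_GL, criterion_GL, not_strong_GL⟩

end Pool.Agent.Results.MP_e3277b_lc.CriterionNotStrong
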