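import Pool.Agent.H.MP_e3277b_lc.SNoBisim
import Pool.Agent.H.MP_e3277b_lc.STypes
import Pool.Agent.H.MP_e3277b_lc.SFull

/-!
Strong Kripke completeness does not imply the Kripke criterion for interpolant existence.
-/

namespace Pool.Agent.Results.MP_e3277b_lc.StrongNotCriterion

open Pool.Agent.H.MP_e3277b_lc
open Pool.Agent.H.MP_e3277b_lc.Form

universe u

theorem not_criterion_K : ¬ KripkeCriterion.{u} LogicK := by
  intro h
  obtain ⟨W₁, R₁, V₁, x₁, W₂, R₂, V₂, x₂, h1, h2, ⟨Z, hZ, hx⟩, h3, h4⟩ :=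
    (h phi1 phi2).1 no_interpolant
  rw [phi1, sat_fI] at h3
  have h5 : T2 R₂ x₂ := by
    apply t2_of_sat_fT (V := V₂) (i := 1)
    rw [phi2, sat_neg, sat_neg, not_not] at h4
    exact h4
  exact no_bisim (inK_of_frameFor h1) (inK_of_frameFor h2) ⟨hZ.forth, hZ.back⟩ hx h3.1
    (fun h6 => h3.2.2 x₁ h6 h3.2.1) h5

/-- There is a normal modal logic that is strongly Kripke complete but lacks the Kripke
criterion. -/
theorem result : ∃ L : Set Form, IsNormal L ∧ StronglyKripkeComplete.{u} L ∧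
    ¬ KripkeCriterion.{u} L :=
  ⟨LogicK, isNormal_K, strong_K, not_criterion_K⟩

end Pool.Agent.Results.MP_e3277b_lc.StrongNotCriterion
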